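import Mathlib
import Pool.Agent.Helper21.NN.Lower
import Pool.Agent.Helper40.NF.All

/-!
# The Ramsey number for monochromatic non-nested matchings is `3 n - 1`

Upper bound: for every `n` there is a multiplicative family of chains of cells (labels that move
on the line as unit intervals), whose evaluation on a 2-colouring gives numbers with a
Maurer-Cartan relation, and a two-point Rolle argument excludes a bad colouring.
Lower bound: the colouring of `K_{3n-2}` in which an edge is red iff its left end is among the
first `n - 1` vertices.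
-/

namespace Pool.Agent.Results.MP_42cd19_co.ExactValue

/-- A non-nested matching of the ordered complete graph on `Fin m`: a set of pairwise
vertex-disjoint edges `(i, j)` with `i < j`, no one of which lies strictly inside another. -/
def IsNonNestedMatching {m : ℕ} (S : Finset (Fin m × Fin m)) : Prop :=
  (∀ e ∈ S, e.1 < e.2) ∧
  (∀ e ∈ S, ∀ f ∈ S, e ≠ f → e.1 ≠ f.1 ∧ e.1 ≠ f.2 ∧ e.2 ≠ f.1 ∧ e.2 ≠ f.2) ∧
  (∀ e ∈ S, ∀ f ∈ S, ¬ (e.1 < f.1 ∧ f.2 < e.2))

/-- Every 2-colouring of the edges of the ordered complete graph `K_m` has a monochromatic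
non-nested matching of size `n` (only the values `col i j` with `i < j` matter). -/
def Arrows (m n : ℕ) : Prop :=
  ∀ col : Fin m → Fin m → Bool, ∃ (b : Bool) (S : Finset (Fin m × Fin m)),
    IsNonNestedMatching S ∧ S.card = n ∧ ∀ e ∈ S, col e.1 e.2 = b

/-- The Ramsey number `f(n)` of the problem: the least `m` with `Arrows m n`. -/
noncomputable def nnRamsey (n : ℕ) : ℕ := sInf {m | Arrows m n}

/-- `f(n) = 3 n - 1` for every `n ≥ 1`. -/
theorem result (n : ℕ) (hn : 1 ≤ n) :
    (∀ m : ℕ, Arrows m n ↔ 3 * n - 1 ≤ m) ∧ nnRamsey n = 3 * n - 1 :=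
  Pool.Agent.Helper21.NN.exact (fun k hk => Pool.Agent.Helper40.NF.arrows k hk) n hn

end Pool.Agent.Results.MP_42cd19_co.ExactValue
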